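import Pool.Agent.Lib_MP_b3c914_an.One

/-!
# `Q^λ` is not isomorphic to any C*-algebra whose unit class in `K_0` has infinite order

(`λ > 0` algebraic; the C*-algebra is assumed to be different from `ℂ`.)
-/

namespace Pool.Agent.Results.MP_b3c914_an.UnitClassTorsion

open Pool.Agent.QLam

/-- Sanity check of the definition of `K_0`: the class of the unit of `ℂ` has infinite order. -/
theorem unitClass_complex (N : ℕ) (hN : 0 < N) : N • unitClass ℂ ≠ 0 := by
  let f : FreeAbelianGroup (Proj ℂ) →+ ℂ := FreeAbelianGroup.lift fun P => P.p.trace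
  have hf : ∀ P : Proj ℂ, f (FreeAbelianGroup.of P) = P.p.trace := fun P =>
    FreeAbelianGroup.lift_apply_of _ _
  have hk : AddSubgroup.closure (relK0 ℂ) ≤ f.ker := by
    rw [AddSubgroup.closure_le]
    rintro x (⟨P, Q, rfl⟩ | ⟨P, Q, ⟨v, h1, h2⟩, rfl⟩)
    · show f _ = 0
      rw [map_sub, map_add, hf, hf, hf]
      have : (P.sum Q).p.trace = P.p.trace + Q.p.trace := by
        unfold Proj.sum Matrix.trace
        simp only [Matrix.diag_apply, Matrix.submatrix_apply]
        rw [← (finSumFinEquiv (m := P.n) (n := Q.n)).sum_comp]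
        simp
      rw [this, sub_self]
    · show f _ = 0
      rw [map_sub, hf, hf, ← h1, ← h2, Matrix.trace_mul_comm, sub_self]
  let F : K0 ℂ →+ ℂ := QuotientAddGroup.lift _ f hk
  intro h
  have h1 : F (N • unitClass ℂ) = 0 := by rw [h, map_zero]
  have h2 : F (unitClass ℂ) = 1 := by
    show f (FreeAbelianGroup.of (unitP ℂ 1)) = 1
    rw [hf]
    show (1 : Matrix (Fin 1) (Fin 1) ℂ).trace = 1
    simp
  rw [map_nsmul, h2] at h1
  simp at h1
  omega

/-- **Main theorem.** Let `A` be a unital C*-algebra different from `ℂ` such that the class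
`[1]_0` of the unit in `K_0(A)` has infinite order. Then `A` is not isomorphic to `Q^λ`, for any
algebraic number `λ > 0`. -/
theorem result (A : Type*) [CStarAlgebra A] (hA : ∃ a : A, ∀ c : ℂ, a ≠ c • (1 : A))
    (hK : ∀ N : ℕ, 0 < N → N • unitClass A ≠ 0) :
    ∀ (lam : ℝ) (h : 0 < lam), IsAlgebraic ℚ lam → ¬ IsQ A lam h := by
  intro lam h halg hQ
  by_cases h1 : lam = 1
  · subst h1
    obtain ⟨a, ha⟩ := hA
    obtain ⟨c, hc⟩ := one_case hQ a
    exact ha c hc
  · obtain ⟨N, hN, hN0⟩ := torsion hQ halg h1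
    exact hK N hN hN0

end Pool.Agent.Results.MP_b3c914_an.UnitClassTorsion
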