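import Pool.Agent.KCH.Main
import Pool.Agent.KCH.Conv

/-!
# Not every unital UCT Kirchberg algebra with finitely generated `K`-groups of equal rank is a `Q^λ`

The negative answer to the question whether equality of the ranks of `K_0` and `K_1` is the only
restriction on the isomorphism classes realised by `Q^λ`, `λ` algebraic. The algebra `A` is
generated by a unitary `u` and an isometry `s` with `s^* u^k s = 0` for `k ≠ 0`; `K_0(A)` and
`K_1(A)` are infinite cyclic, and `[1]_0` has infinite order, while `[1]_0` is a torsion element of
`K_0(Q^λ)` for every algebraic `λ`.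
-/

set_option autoImplicit false

namespace Pool.Agent.Results.MP_b3c914_an.Counterexample

open TopologicalSpace Pool.Agent.KCH

/-- **Main theorem.** There is a unital UCT Kirchberg algebra `A` with finitely generated groups
`K_0(A)` and `K_1(A)` of the same rank which is not isomorphic to `Q^λ`, for any algebraic number
`λ > 0`. -/
theorem result :
    ∃ (A : Type) (_ : CStarAlgebra A) (_ : SeparableSpace A), IsKirchberg A ∧ Spec.UCT A ∧
      AddGroup.FG (K0 A) ∧ AddGroup.FG (K1 A) ∧
      Module.finrank ℤ (K0 A) = Module.finrank ℤ (K1 A) ∧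
      ∀ (lam : ℝ) (h : 0 < lam), IsAlgebraic ℚ lam → ¬ Pool.Agent.QLam.IsQ A lam h := by
  obtain ⟨A, i1, i2, h1, h2, h3⟩ := main_theorem
  exact ⟨A, i1, i2, h1, spec_uct A h2, h3⟩

end Pool.Agent.Results.MP_b3c914_an.Counterexample
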